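import Mathlib

/-!
# Metric polytopes and the diameter: the lemmas of `Pool/Agent/S08938.lean` (author: helper44), copied

The metric polytope in its plus-minus-one form, its diameter and cut vectors, and the Frankl and Wilson bound.
-/

set_option autoImplicit false

namespace Pool.Agent.H91.CovPoly

lemma two_sq_le_one {s t M : ℝ} (hs0 : 0 ≤ s) (ht0 : 0 ≤ t) (hsM : s ≤ M) (htM : t ≤ M)
    (hM1 : M ≤ 1) (hst : s + t + M ≤ 2) : s ^ 2 + t ^ 2 ≤ 1 := by
  by_cases hM : M ≤ 7/10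
  · nlinarith
  · push Not at hM
    rcases le_total t s with h | h
    · nlinarith [mul_nonneg (sub_nonneg.2 hsM) (sub_nonneg.2 h), mul_nonneg hs0 ht0,
        mul_nonneg (sub_nonneg.2 hsM) ht0, mul_nonneg (sub_nonneg.2 hM1) (sub_nonneg.2 hM.le)]
    · nlinarith [mul_nonneg (sub_nonneg.2 htM) (sub_nonneg.2 h), mul_nonneg hs0 ht0,
        mul_nonneg (sub_nonneg.2 htM) hs0, mul_nonneg (sub_nonneg.2 hM1) (sub_nonneg.2 hM.le)]

/-- For a symmetric weight bounded by one, all of whose triangles have perimeter at most two, the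
sum of the squares over ordered pairs of a set of size `2 k` is at most `2 k ^ 2`. -/
lemma sum_sq_le {V : Type} [DecidableEq V] (w : V → V → ℝ) (h0 : ∀ i j, 0 ≤ w i j)
    (hself : ∀ i, w i i = 0)
    (hsymm : ∀ i j, w i j = w j i) (h1 : ∀ i j, w i j ≤ 1)
    (h3 : ∀ i j k, i ≠ j → j ≠ k → i ≠ k → w i j + w j k + w i k ≤ 2) :
    ∀ (k : ℕ) (s : Finset V), s.card = 2 * k →
      ∑ i ∈ s, ∑ j ∈ s, w i j ^ 2 ≤ 2 * (k : ℝ) ^ 2 := by
  intro k
  induction k with
  | zero =>
    intro s hs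
    have : s = ∅ := by simpa using hs
    subst this
    simp
  | succ k ih =>
    intro s hs
    have hne : s.offDiag.Nonempty := by
      obtain ⟨a, ha, b, hb, hab⟩ := Finset.one_lt_card.1 (by omega : 1 < s.card)
      exact ⟨(a, b), Finset.mem_offDiag.2 ⟨ha, hb, hab⟩⟩
    obtain ⟨⟨x, y⟩, hxy, hmax⟩ := Finset.exists_max_image s.offDiag (fun e => w e.1 e.2) hne
    rw [Finset.mem_offDiag] at hxy
    obtain ⟨hx, hy, hxyne⟩ := hxy
    simp only at hx hy hxyne
    set r := (s.erase x).erase y with hr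
    have hyx : y ∈ s.erase x := Finset.mem_erase.2 ⟨hxyne.symm, hy⟩
    have hrcard : r.card = 2 * k := by
      rw [hr, Finset.card_erase_of_mem hyx, Finset.card_erase_of_mem hx]
      omega
    have hsplit : ∀ f : V → ℝ, ∑ i ∈ s, f i = f x + (f y + ∑ i ∈ r, f i) := by
      intro f
      rw [← Finset.add_sum_erase s f hx, ← Finset.add_sum_erase (s.erase x) f hyx]
    have hz : ∀ z ∈ r, w x z ^ 2 + w y z ^ 2 ≤ 1 := by
      intro z hz
      rw [hr, Finset.mem_erase, Finset.mem_erase] at hz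
      obtain ⟨hzy, hzx, hzs⟩ := hz
      have hxz := hmax (x, z) (Finset.mem_offDiag.2 ⟨hx, hzs, hzx.symm⟩)
      have hyz := hmax (y, z) (Finset.mem_offDiag.2 ⟨hy, hzs, hzy.symm⟩)
      have hp := h3 x y z hxyne hzy.symm hzx.symm
      exact two_sq_le_one (h0 _ _) (h0 _ _) hxz hyz (h1 _ _) (by simp only at *; linarith)
    have hsum : ∑ z ∈ r, (w x z ^ 2 + w y z ^ 2) ≤ 2 * (k : ℝ) := by
      calc ∑ z ∈ r, (w x z ^ 2 + w y z ^ 2) ≤ ∑ z ∈ r, (1 : ℝ) := Finset.sum_le_sum hz
        _ = 2 * (k : ℝ) := by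
          rw [Finset.sum_const, hrcard]
          simp
    have hxy1 : w x y ^ 2 ≤ 1 := by
      have := h1 x y
      have := h0 x y
      nlinarith
    have ihr := ih r hrcard
    have hexp : ∑ i ∈ s, ∑ j ∈ s, w i j ^ 2
        = 2 * w x y ^ 2 + 2 * ∑ z ∈ r, (w x z ^ 2 + w y z ^ 2) + ∑ i ∈ r, ∑ j ∈ r, w i j ^ 2 := by
      rw [hsplit]
      rw [hsplit (fun j => w x j ^ 2), hsplit (fun j => w y j ^ 2)]
      have : ∑ i ∈ r, ∑ j ∈ s, w i j ^ 2
          = ∑ i ∈ r, (w x i ^ 2 + w y i ^ 2) + ∑ i ∈ r, ∑ j ∈ r, w i j ^ 2 := by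
        rw [← Finset.sum_add_distrib]
        apply Finset.sum_congr rfl
        intro i _
        rw [hsplit (fun j => w i j ^ 2), hsymm i x, hsymm i y]
        ring
      rw [this, hself, hself, hsymm y x]
      simp only [Finset.sum_add_distrib]
      ring
    rw [hexp]
    push_cast
    nlinarith

/-- Number of subsets of size less than `p`. -/
lemma card_small_le (n p : ℕ) :
    Fintype.card {S : Finset (Fin n) // S.card < p} ≤ ∑ i ∈ Finset.range p, n.choose i := by
  classical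
  rw [Fintype.card_subtype]
  have hsub : (Finset.univ.filter fun S : Finset (Fin n) => S.card < p)
      ⊆ (Finset.range p).biUnion (fun i => Finset.powersetCard i Finset.univ) := by
    intro S hS
    rw [Finset.mem_filter] at hS
    rw [Finset.mem_biUnion]
    exact ⟨S.card, Finset.mem_range.2 hS.2, Finset.mem_powersetCard.2 ⟨Finset.subset_univ _, rfl⟩⟩
  refine (Finset.card_le_card hsub).trans (Finset.card_biUnion_le.trans ?_)
  apply Finset.sum_le_sum
  intro i _
  rw [Finset.card_powersetCard]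
  simp

/-- The monomial function attached to a set `S`. -/
lemma pow_mem_span {n : ℕ} {K : Type} [Field K] (F : Finset (Finset (Fin n)))
    (A : Finset (Fin n)) (k p : ℕ) (hk : k < p) :
    (fun B : F => (((A ∩ B.1).card : ℕ) : K) ^ k) ∈
      Submodule.span K (Set.range (fun (S : {S : Finset (Fin n) // S.card < p}) =>
        (fun B : F => if S.1 ⊆ B.1 then (1 : K) else 0))) := by
  have key : ∀ k : ℕ, (fun B : F => (((A ∩ B.1).card : ℕ) : K) ^ k) ∈
      Submodule.span K (Set.range (fun (S : {S : Finset (Fin n) // S.card ≤ k}) =>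
        (fun B : F => if S.1 ⊆ B.1 then (1 : K) else 0))) := by
    intro k
    induction k with
    | zero =>
      apply Submodule.subset_span
      refine ⟨⟨∅, by simp⟩, ?_⟩
      funext B
      simp
    | succ k ih =>
      have hcard : ∀ B : F, (((A ∩ B.1).card : ℕ) : K) = ∑ i ∈ A, if i ∈ B.1 then (1 : K) else 0 := by
        intro B
        rw [Finset.sum_ite_mem, Finset.sum_const, nsmul_eq_mul, mul_one]
      have hprod : (fun B : F => (((A ∩ B.1).card : ℕ) : K) ^ (k + 1))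
          = ∑ i ∈ A, (fun B : F => (((A ∩ B.1).card : ℕ) : K) ^ k * if i ∈ B.1 then (1 : K) else 0) := by
        funext B
        rw [Finset.sum_apply, ← Finset.mul_sum, ← hcard B, pow_succ]
      rw [hprod]
      apply Submodule.sum_mem
      intro i _
      have hgen : ∀ f ∈ Submodule.span K (Set.range (fun (S : {S : Finset (Fin n) // S.card ≤ k}) =>
          (fun B : F => if S.1 ⊆ B.1 then (1 : K) else 0))),
          (fun B : F => f B * if i ∈ B.1 then (1 : K) else 0) ∈
          Submodule.span K (Set.range (fun (S : {S : Finset (Fin n) // S.card ≤ k + 1}) =>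
            (fun B : F => if S.1 ⊆ B.1 then (1 : K) else 0))) := by
        intro f hf
        induction hf using Submodule.span_induction with
        | mem x hx =>
          obtain ⟨S, rfl⟩ := hx
          apply Submodule.subset_span
          refine ⟨⟨insert i S.1, (Finset.card_insert_le _ _).trans (Nat.succ_le_succ S.2)⟩, ?_⟩
          funext B
          by_cases h1 : i ∈ B.1 <;> by_cases h2 : S.1 ⊆ B.1 <;>
            simp [Finset.insert_subset_iff, h1, h2]
        | zero =>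
          convert Submodule.zero_mem _ using 1
          funext B
          simp
        | add x y _ _ hx hy =>
          convert Submodule.add_mem _ hx hy using 1
          funext B
          simp only [Pi.add_apply, add_mul]
        | smul a x _ hx =>
          convert Submodule.smul_mem _ a hx using 1
          funext B
          simp
      exact hgen _ ih
  refine Submodule.span_mono ?_ (key k)
  rintro _ ⟨S, rfl⟩
  exact ⟨⟨S.1, lt_of_le_of_lt S.2 hk⟩, rfl⟩

/-- Frankl and Wilson type bound. -/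
lemma frankl_wilson {n p : ℕ} [Fact p.Prime] (F : Finset (Finset (Fin n)))
    (hself : ∀ A ∈ F, ((A.card : ℕ) : ZMod p) = 0)
    (hne : ∀ A ∈ F, ∀ B ∈ F, A ≠ B → (((A ∩ B).card : ℕ) : ZMod p) ≠ 0) :
    F.card ≤ ∑ i ∈ Finset.range p, n.choose i := by
  classical
  have hp : p.Prime := Fact.out
  set W := Submodule.span (ZMod p) (Set.range (fun (S : {S : Finset (Fin n) // S.card < p}) =>
        (fun B : F => if S.1 ⊆ B.1 then (1 : ZMod p) else 0))) with hW
  have hone : (fun _ : F => (1 : ZMod p)) ∈ W := by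
    have := pow_mem_span (K := ZMod p) F ∅ 0 p hp.pos
    simpa using this
  have hsingle : ∀ A : F, (Pi.single A (1 : ZMod p) : F → ZMod p) ∈ W := by
    intro A
    have h1 := pow_mem_span (K := ZMod p) F A.1 (p - 1) p (Nat.sub_lt hp.pos one_pos)
    have h2 := Submodule.sub_mem _ hone h1
    convert h2 using 1
    funext B
    by_cases hAB : B = A
    · subst hAB
      have : p - 1 ≠ 0 := Nat.sub_ne_zero_of_lt hp.one_lt
      simp [hself B.1 B.2, this]
    · have hne' : A.1 ≠ B.1 := fun h => hAB (Subtype.ext h.symm)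
      have := ZMod.pow_card_sub_one_eq_one (hne A.1 A.2 B.1 B.2 hne')
      simp [hAB, this]
  have htop : W = ⊤ := by
    rw [eq_top_iff]
    intro f _
    have : f = ∑ A : F, f A • (Pi.single A (1 : ZMod p) : F → ZMod p) := by
      funext B
      simp [Finset.sum_apply, Pi.single_apply]
    rw [this]
    exact Submodule.sum_mem _ fun A _ => Submodule.smul_mem _ _ (hsingle A)
  have hfin : Module.finrank (ZMod p) W ≤ Fintype.card {S : Finset (Fin n) // S.card < p} := by
    have := finrank_range_le_card (R := ZMod p)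
      (b := fun (S : {S : Finset (Fin n) // S.card < p}) =>
        (fun B : F => if S.1 ⊆ B.1 then (1 : ZMod p) else 0))
    exact this
  rw [htop, finrank_top, Module.finrank_fintype_fun_eq_card, Fintype.card_coe] at hfin
  exact hfin.trans (card_small_le n p)

/-- The pairs `i < j`. -/
abbrev PairT (n : ℕ) := {e : Fin n × Fin n // e.1 < e.2}

/-- The triples `i < j < k` together with one of four sign patterns. -/
abbrev TripT (n : ℕ) := {t : Fin n × Fin n × Fin n // t.1 < t.2.1 ∧ t.2.1 < t.2.2} × Fin 4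

/-- The ambient dimension. -/
abbrev dim (n : ℕ) : ℕ := Fintype.card (PairT n)

/-- The number of inequalities. -/
abbrev num (n : ℕ) : ℕ := Fintype.card (TripT n)

/-- Numbering of the coordinates. -/
noncomputable def ef (n : ℕ) : PairT n ≃ Fin (dim n) := Fintype.equivFin _

/-- Numbering of the inequalities. -/
noncomputable def tf (n : ℕ) : TripT n ≃ Fin (num n) := Fintype.equivFin _

/-- The ambient space. -/
abbrev Sp (n : ℕ) := EuclideanSpace ℝ (Fin (dim n))

/-- The sign patterns. -/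
def sg : Fin 4 → Fin 3 → ℝ := ![![-1, -1, -1], ![-1, 1, 1], ![1, -1, 1], ![1, 1, -1]]

/-- The entry of a vector, as a symmetric matrix. -/
noncomputable def ent {n : ℕ} (X : Sp n) (i j : Fin n) : ℝ :=
  if h : i < j then X (ef n ⟨(i, j), h⟩) else if h : j < i then X (ef n ⟨(j, i), h⟩) else 0

lemma ent_lt {n : ℕ} (X : Sp n) {i j : Fin n} (h : i < j) : ent X i j = X (ef n ⟨(i, j), h⟩) := by
  simp [ent, h]

lemma ent_self {n : ℕ} (X : Sp n) (i : Fin n) : ent X i i = 0 := by
  simp [ent]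

lemma ent_symm {n : ℕ} (X : Sp n) (i j : Fin n) : ent X i j = ent X j i := by
  rcases lt_trichotomy i j with h | h | h
  · simp [ent, h, h.not_gt]
  · subst h; rfl
  · simp [ent, h, h.not_gt]

/-- The normal vector of an inequality. -/
noncomputable def nv {n : ℕ} (t : TripT n) : Sp n :=
  sg t.2 0 • EuclideanSpace.single (ef n ⟨(t.1.1.1, t.1.1.2.1), t.1.2.1⟩) (1 : ℝ)
  + sg t.2 1 • EuclideanSpace.single (ef n ⟨(t.1.1.2.1, t.1.1.2.2), t.1.2.2⟩) (1 : ℝ)
  + sg t.2 2 • EuclideanSpace.single (ef n ⟨(t.1.1.1, t.1.1.2.2), t.1.2.1.trans t.1.2.2⟩) (1 : ℝ)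

lemma inner_nv {n : ℕ} (t : TripT n) (X : Sp n) :
    @inner ℝ _ _ (nv t) X = sg t.2 0 * ent X t.1.1.1 t.1.1.2.1
      + sg t.2 1 * ent X t.1.1.2.1 t.1.1.2.2 + sg t.2 2 * ent X t.1.1.1 t.1.1.2.2 := by
  rw [ent_lt X t.1.2.1, ent_lt X t.1.2.2, ent_lt X (t.1.2.1.trans t.1.2.2)]
  simp only [nv, inner_add_left, inner_smul_left, EuclideanSpace.inner_single_left]
  simp

/-- The metric polytope. -/
noncomputable def Pt (n : ℕ) : Set (Sp n) :=
  ⋂ q : Fin (num n), {X : Sp n | @inner ℝ _ _ (nv ((tf n).symm q)) X ≤ 1}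

lemma mem_Pt {n : ℕ} (X : Sp n) : X ∈ Pt n ↔ ∀ t : TripT n, @inner ℝ _ _ (nv t) X ≤ 1 := by
  simp only [Pt, Set.mem_iInter, Set.mem_ofPred_eq]
  constructor
  · intro h t
    have := h (tf n t)
    simpa using this
  · intro h q
    exact h _

lemma mem_Pt_iff {n : ℕ} (X : Sp n) : X ∈ Pt n ↔ ∀ i j k : Fin n, i < j → j < k →
    (- ent X i j - ent X j k - ent X i k ≤ 1 ∧ - ent X i j + ent X j k + ent X i k ≤ 1 ∧
      ent X i j - ent X j k + ent X i k ≤ 1 ∧ ent X i j + ent X j k - ent X i k ≤ 1) := by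
  rw [mem_Pt]
  constructor
  · intro h i j k hij hjk
    have h0 := h (⟨(i, j, k), hij, hjk⟩, 0)
    have h1 := h (⟨(i, j, k), hij, hjk⟩, 1)
    have h2 := h (⟨(i, j, k), hij, hjk⟩, 2)
    have h3 := h (⟨(i, j, k), hij, hjk⟩, 3)
    rw [inner_nv] at h0 h1 h2 h3
    simp [sg] at h0 h1 h2 h3
    refine ⟨by linarith, by linarith, by linarith, by linarith⟩
  · rintro h ⟨⟨⟨i, j, k⟩, hij, hjk⟩, s⟩
    obtain ⟨h0, h1, h2, h3⟩ := h i j k hij hjk
    rw [inner_nv]
    fin_cases s <;> simp [sg] <;> linarith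

/-- half the absolute difference -/
noncomputable def wt {n : ℕ} (X Y : Sp n) (i j : Fin n) : ℝ := |ent X i j - ent Y i j| / 2

lemma wt_symm {n : ℕ} (X Y : Sp n) (i j : Fin n) : wt X Y i j = wt X Y j i := by
  unfold wt; rw [ent_symm X, ent_symm Y]

lemma tri_aux {a b c a' b' c' : ℝ}
    (h0 : - a - b - c ≤ 1) (h1 : - a + b + c ≤ 1) (h2 : a - b + c ≤ 1) (h3 : a + b - c ≤ 1)
    (h0' : - a' - b' - c' ≤ 1) (h1' : - a' + b' + c' ≤ 1) (h2' : a' - b' + c' ≤ 1)
    (h3' : a' + b' - c' ≤ 1) :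
    |a - a'| / 2 ≤ 1 ∧ |b - b'| / 2 ≤ 1 ∧ |c - c'| / 2 ≤ 1 ∧
      |a - a'| / 2 + |b - b'| / 2 + |c - c'| / 2 ≤ 2 := by
  rcases abs_cases (a - a') with ⟨e1, _⟩ | ⟨e1, _⟩ <;>
  rcases abs_cases (b - b') with ⟨e2, _⟩ | ⟨e2, _⟩ <;>
  rcases abs_cases (c - c') with ⟨e3, _⟩ | ⟨e3, _⟩ <;>
  rw [e1, e2, e3] <;> refine ⟨by linarith, by linarith, by linarith, by linarith⟩

lemma wt_lt {n : ℕ} {X Y : Sp n} (hX : X ∈ Pt n) (hY : Y ∈ Pt n) {i j k : Fin n} (hij : i < j)
    (hjk : j < k) : wt X Y i j ≤ 1 ∧ wt X Y j k ≤ 1 ∧ wt X Y i k ≤ 1 ∧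
      wt X Y i j + wt X Y j k + wt X Y i k ≤ 2 := by
  rw [mem_Pt_iff] at hX hY
  obtain ⟨h0, h1, h2, h3⟩ := hX i j k hij hjk
  obtain ⟨h0', h1', h2', h3'⟩ := hY i j k hij hjk
  exact tri_aux h0 h1 h2 h3 h0' h1' h2' h3'

lemma wt_three {n : ℕ} {X Y : Sp n} (hX : X ∈ Pt n) (hY : Y ∈ Pt n) (i j k : Fin n) (hij : i ≠ j)
    (hjk : j ≠ k) (hik : i ≠ k) : wt X Y i j ≤ 1 ∧ wt X Y i j + wt X Y j k + wt X Y i k ≤ 2 := by
  rcases lt_or_gt_of_ne hij with h1 | h1 <;> rcases lt_or_gt_of_ne hjk with h2 | h2 <;>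
    rcases lt_or_gt_of_ne hik with h3 | h3
  · obtain ⟨a1, a2, a3, a4⟩ := wt_lt hX hY h1 h2
    exact ⟨a1, a4⟩
  · exact absurd (h1.trans h2) h3.not_gt
  · obtain ⟨a1, a2, a3, a4⟩ := wt_lt hX hY h3 h2
    rw [wt_symm X Y k j] at a2 a4
    exact ⟨a3, by linarith⟩
  · obtain ⟨a1, a2, a3, a4⟩ := wt_lt hX hY h3 h1
    rw [wt_symm X Y k j, wt_symm X Y k i] at *
    exact ⟨by linarith, by linarith⟩
  · obtain ⟨a1, a2, a3, a4⟩ := wt_lt hX hY h1 h3
    rw [wt_symm X Y j i] at *
    exact ⟨by linarith, by linarith⟩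
  · obtain ⟨a1, a2, a3, a4⟩ := wt_lt hX hY h2 h3
    rw [wt_symm X Y j i, wt_symm X Y k i] at *
    exact ⟨by linarith, by linarith⟩
  · exact absurd (h3.trans h2) h1.not_gt
  · obtain ⟨a1, a2, a3, a4⟩ := wt_lt hX hY h2 h1
    rw [wt_symm X Y j i, wt_symm X Y k i, wt_symm X Y k j] at *
    exact ⟨by linarith, by linarith⟩

lemma sum_pairs {n : ℕ} (g : Fin n → Fin n → ℝ) (hs : ∀ i j, g i j = g j i) (hd : ∀ i, g i i = 0) :
    ∑ e : PairT n, g e.1.1 e.1.2 = (∑ i, ∑ j, g i j) / 2 := by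
  have h1 : ∑ e : PairT n, g e.1.1 e.1.2 = ∑ i, ∑ j, if i < j then g i j else 0 := by
    rw [← Finset.sum_subtype (Finset.univ.filter fun x : Fin n × Fin n => x.1 < x.2) (by simp)
      (fun x => g x.1 x.2), Finset.sum_filter, Fintype.sum_prod_type]
  have h2 : ∑ i, ∑ j, g i j = (∑ i : Fin n, ∑ j : Fin n, if i < j then g i j else 0)
      + ∑ i : Fin n, ∑ j : Fin n, if j < i then g i j else 0 := by
    rw [← Finset.sum_add_distrib]
    refine Finset.sum_congr rfl fun i _ => ?_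
    rw [← Finset.sum_add_distrib]
    refine Finset.sum_congr rfl fun j _ => ?_
    rcases lt_trichotomy i j with h | h | h
    · simp [h, h.not_gt]
    · subst h; simp [hd]
    · simp [h, h.not_gt]
  have h3 : (∑ i : Fin n, ∑ j : Fin n, if j < i then g i j else 0)
      = ∑ i : Fin n, ∑ j : Fin n, if i < j then g i j else 0 := by
    rw [Finset.sum_comm]
    refine Finset.sum_congr rfl fun i _ => ?_
    refine Finset.sum_congr rfl fun j _ => ?_
    rw [hs]
  rw [h1, h2, h3]
  ring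

lemma dist_sq {n : ℕ} (X Y : Sp n) :
    dist X Y ^ 2 = (∑ i, ∑ j, (ent X i j - ent Y i j) ^ 2) / 2 := by
  rw [EuclideanSpace.dist_eq, Real.sq_sqrt (Finset.sum_nonneg fun _ _ => by positivity)]
  rw [← sum_pairs (fun i j => (ent X i j - ent Y i j) ^ 2)
    (fun i j => by rw [ent_symm X, ent_symm Y]) (fun i => by simp [ent_self])]
  rw [← Equiv.sum_comp (ef n)]
  refine Finset.sum_congr rfl fun e _ => ?_
  rw [ent_lt X e.2, ent_lt Y e.2, Real.dist_eq, sq_abs]

lemma dist_le {k : ℕ} (hk : 2 ≤ k) {X Y : Sp (2 * k)} (hX : X ∈ Pt (2 * k)) (hY : Y ∈ Pt (2 * k)) :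
    dist X Y ≤ 2 * (k : ℝ) := by
  have hw1 : ∀ i j, wt X Y i j ≤ 1 := by
    intro i j
    by_cases hij : i = j
    · subst hij; simp [wt, ent_self]
    · obtain ⟨l, hl⟩ : ∃ l : Fin (2 * k), l ∉ ({i, j} : Finset (Fin (2 * k))) := by
        by_contra hcon
        push Not at hcon
        have h1 : (Finset.univ : Finset (Fin (2 * k))) ⊆ {i, j} := fun l _ => hcon l
        have h2 := Finset.card_le_card h1
        have h3 := Finset.card_le_two (a := i) (b := j)
        simp only [Finset.card_univ, Fintype.card_fin] at h2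
        omega
      rw [Finset.mem_insert, Finset.mem_singleton, not_or] at hl
      exact (wt_three hX hY i j l hij (Ne.symm hl.2) (Ne.symm hl.1)).1
  have hmain := sum_sq_le (wt X Y) (fun i j => by unfold wt; positivity)
    (fun i => by simp [wt, ent_self]) (wt_symm X Y) hw1
    (fun i j l h1 h2 h3 => (wt_three hX hY i j l h1 h2 h3).2) k Finset.univ (by simp)
  have hd := dist_sq X Y
  have he : ∑ i, ∑ j, (ent X i j - ent Y i j) ^ 2 = 4 * ∑ i, ∑ j, wt X Y i j ^ 2 := by
    rw [Finset.mul_sum]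
    refine Finset.sum_congr rfl fun i _ => ?_
    rw [Finset.mul_sum]
    refine Finset.sum_congr rfl fun j _ => ?_
    unfold wt
    rw [div_pow, sq_abs]
    ring
  rw [he] at hd
  have hsq : dist X Y ^ 2 ≤ (2 * (k : ℝ)) ^ 2 := by
    rw [hd]; nlinarith
  exact le_of_sq_le_sq hsq (by positivity)

/-- The sign vector of a set. -/
def sv {n : ℕ} (A : Finset (Fin n)) (i : Fin n) : ℝ := if i ∈ A then 1 else -1

lemma sv_cases {n : ℕ} (A : Finset (Fin n)) (i : Fin n) : sv A i = 1 ∨ sv A i = -1 := by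
  unfold sv; split_ifs <;> simp

/-- The cut vector of a set. -/
noncomputable def cv {n : ℕ} (A : Finset (Fin n)) : Sp n :=
  WithLp.toLp 2 (fun q => sv A ((ef n).symm q).1.1 * sv A ((ef n).symm q).1.2)

lemma ent_cv {n : ℕ} (A : Finset (Fin n)) {i j : Fin n} (h : i ≠ j) :
    ent (cv A) i j = sv A i * sv A j := by
  rcases lt_or_gt_of_ne h with h | h
  · rw [ent_lt _ h]; simp [cv]
  · rw [ent_symm, ent_lt _ h]; simp [cv, mul_comm]

lemma cv_mem {n : ℕ} (A : Finset (Fin n)) : cv A ∈ Pt n := by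
  rw [mem_Pt_iff]
  intro i j k hij hjk
  rw [ent_cv A hij.ne, ent_cv A hjk.ne, ent_cv A (hij.trans hjk).ne]
  rcases sv_cases A i with h1 | h1 <;> rcases sv_cases A j with h2 | h2 <;>
    rcases sv_cases A k with h3 | h3 <;> rw [h1, h2, h3] <;> norm_num

lemma sum_sv {p : ℕ} {A B : Finset (Fin (4 * p))} (hA : A.card = 2 * p) (hB : B.card = 2 * p)
    (hAB : (A ∩ B).card = p) : ∑ i, sv A i * sv B i = 0 := by
  have h : ∀ i : Fin (4 * p), sv A i * sv B i = 4 * (if i ∈ A ∩ B then (1 : ℝ) else 0)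
      - 2 * (if i ∈ A then (1 : ℝ) else 0) - 2 * (if i ∈ B then (1 : ℝ) else 0) + 1 := by
    intro i
    by_cases h1 : i ∈ A <;> by_cases h2 : i ∈ B <;> simp [sv, h1, h2] <;> norm_num
  rw [Finset.sum_congr rfl fun i _ => h i]
  rw [Finset.sum_add_distrib, Finset.sum_sub_distrib, Finset.sum_sub_distrib, ← Finset.mul_sum,
    ← Finset.mul_sum, ← Finset.mul_sum]
  simp only [Finset.sum_ite_mem, Finset.univ_inter, Finset.sum_const, nsmul_eq_mul, mul_one,
    Finset.card_univ, Fintype.card_fin]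
  rw [hA, hB, hAB]
  push_cast
  ring

lemma dist_cv {p : ℕ} {A B : Finset (Fin (4 * p))} (hA : A.card = 2 * p) (hB : B.card = 2 * p)
    (hAB : (A ∩ B).card = p) : dist (cv A) (cv B) = 4 * (p : ℝ) := by
  have hd := dist_sq (cv A) (cv B)
  have h1 : ∀ i j : Fin (4 * p), (ent (cv A) i j - ent (cv B) i j) ^ 2
      = 2 - 2 * ((sv A i * sv B i) * (sv A j * sv B j)) := by
    intro i j
    by_cases hij : i = j
    · subst hij
      rw [ent_self, ent_self]
      rcases sv_cases A i with h1 | h1 <;> rcases sv_cases B i with h2 | h2 <;> rw [h1, h2] <;>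
        norm_num
    · rw [ent_cv A hij, ent_cv B hij]
      rcases sv_cases A i with h1 | h1 <;> rcases sv_cases B i with h2 | h2 <;>
      rcases sv_cases A j with h3 | h3 <;> rcases sv_cases B j with h4 | h4 <;>
      rw [h1, h2, h3, h4] <;> norm_num
  have h2 : ∑ i, ∑ j, (ent (cv A) i j - ent (cv B) i j) ^ 2 = 2 * (4 * (p : ℝ)) ^ 2 := by
    rw [Finset.sum_congr rfl fun i _ => Finset.sum_congr rfl fun j _ => h1 i j]
    simp only [Finset.sum_sub_distrib, Finset.sum_const, Finset.card_univ, Fintype.card_fin,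
      nsmul_eq_mul, ← Finset.mul_sum, sum_sv hA hB hAB, mul_zero]
    push_cast
    ring
  rw [h2] at hd
  have h3 : dist (cv A) (cv B) ^ 2 = (4 * (p : ℝ)) ^ 2 := by rw [hd]; ring
  exact (pow_left_inj₀ dist_nonneg (by positivity) two_ne_zero).1 h3

lemma num_le (n : ℕ) : num n ≤ 4 * n ^ 3 := by
  unfold num TripT
  rw [Fintype.card_prod, Fintype.card_fin]
  have h := Fintype.card_subtype_le
    (fun t : Fin n × Fin n × Fin n => t.1 < t.2.1 ∧ t.2.1 < t.2.2)
  rw [Fintype.card_prod, Fintype.card_prod, Fintype.card_fin] at h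
  calc _ ≤ (n * (n * n)) * 4 := Nat.mul_le_mul_right 4 h
    _ = 4 * n ^ 3 := by ring

lemma Pt_bounded {k : ℕ} (hk : 2 ≤ k) : Bornology.IsBounded (Pt (2 * k)) :=
  Metric.isBounded_iff.2 ⟨2 * k, fun _ hX _ hY => dist_le hk hX hY⟩

lemma Pt_interior (n : ℕ) : (interior (Pt n)).Nonempty := by
  refine ⟨0, mem_interior.2 ⟨Metric.ball 0 (1 / 3), ?_, Metric.isOpen_ball, by simp⟩⟩
  intro X hX
  rw [mem_ball_zero_iff] at hX
  have hb : ∀ q, |X q| < 1 / 3 := fun q => by
    have := PiLp.norm_apply_le X q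
    rw [Real.norm_eq_abs] at this
    linarith
  rw [mem_Pt_iff]
  intro i j k hij hjk
  rw [ent_lt X hij, ent_lt X hjk, ent_lt X (hij.trans hjk)]
  have h1 := abs_lt.1 (hb (ef n ⟨(i, j), hij⟩))
  have h2 := abs_lt.1 (hb (ef n ⟨(j, k), hjk⟩))
  have h3 := abs_lt.1 (hb (ef n ⟨(i, k), hij.trans hjk⟩))
  refine ⟨by linarith, by linarith, by linarith, by linarith⟩

/-- The family of sets of size `2 p` that contain a fixed point. -/
lemma exists_family (p : ℕ) (hp : 0 < p) : ∃ (z : Fin (4 * p)) (F : Finset (Finset (Fin (4 * p)))),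
    F.card = (4 * p - 1).choose (2 * p - 1) ∧ ∀ A ∈ F, A.card = 2 * p ∧ z ∈ A := by
  let z : Fin (4 * p) := ⟨0, by omega⟩
  refine ⟨z, (Finset.powersetCard (2 * p - 1) (Finset.univ.erase z)).image (insert z), ?_, ?_⟩
  · rw [Finset.card_image_of_injOn, Finset.card_powersetCard, Finset.card_erase_of_mem
      (Finset.mem_univ _), Finset.card_univ, Fintype.card_fin]
    intro A hA B hB hAB
    rw [Finset.mem_coe, Finset.mem_powersetCard] at hA hB
    have hzA : z ∉ A := fun h => (Finset.notMem_erase z _) (hA.1 h)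
    have hzB : z ∉ B := fun h => (Finset.notMem_erase z _) (hB.1 h)
    rw [← Finset.erase_insert hzA, ← Finset.erase_insert hzB, hAB]
  · intro A hA
    rw [Finset.mem_image] at hA
    obtain ⟨B, hB, rfl⟩ := hA
    rw [Finset.mem_powersetCard] at hB
    have hzB : z ∉ B := fun h => (Finset.notMem_erase z _) (hB.1 h)
    refine ⟨?_, Finset.mem_insert_self _ _⟩
    rw [Finset.card_insert_of_notMem hzB, hB.2]
    omega

end Pool.Agent.H91.CovPoly
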