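import Pool.Agent.H91.CovPoly.Base

/-!
# The numbers of pairs and triples
-/

set_option autoImplicit false

namespace Pool.Agent.H91.CovPoly

open Finset

lemma sum_range_choose_two (n : ℕ) : ∑ k ∈ range n, k.choose 2 = n.choose 3 := by
  induction n with
  | zero => rfl
  | succ n ih => rw [Finset.sum_range_succ, ih, Nat.choose_succ_succ n 2, add_comm]

lemma sum_range_choose_one (n : ℕ) : ∑ k ∈ range n, k = n.choose 2 := by
  induction n with
  | zero => rfl
  | succ n ih =>
    rw [Finset.sum_range_succ, ih, Nat.choose_succ_succ n 1, Nat.choose_one_right, add_comm]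

lemma sum_lt (n : ℕ) (k : Fin n) (g : ℕ → ℕ) :
    ∑ j : Fin n, (if j < k then g j else 0) = ∑ j ∈ range k, g j := by
  have h : ∀ j : Fin n, (if j < k then g j else 0) = (fun j : ℕ => if j < (k : ℕ) then g j else 0) j := by
    intro j
    simp only [Fin.lt_def]
  rw [Finset.sum_congr rfl fun j _ => h j,
    Fin.sum_univ_eq_sum_range (fun j : ℕ => if j < (k : ℕ) then g j else 0) n,
    ← Finset.sum_filter]
  refine Finset.sum_congr ?_ fun _ _ => rfl
  ext j
  simp only [Finset.mem_filter, Finset.mem_range]
  exact ⟨fun h => h.2, fun h => ⟨h.trans k.2, h⟩⟩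

lemma card_pairs (n : ℕ) : Fintype.card (PairT n) = n.choose 2 := by
  rw [Fintype.card_subtype, Finset.card_filter, Fintype.sum_prod_type, Finset.sum_comm]
  have h : ∀ k : Fin n, ∑ j : Fin n, (if (j, k).1 < (j, k).2 then 1 else 0) = (k : ℕ) := by
    intro k
    have := sum_lt n k (fun _ => 1)
    simp only at this ⊢
    rw [this]
    simp
  rw [Finset.sum_congr rfl fun k _ => h k, Fin.sum_univ_eq_sum_range (fun j : ℕ => j) n,
    sum_range_choose_one]

lemma card_trips (n : ℕ) : Fintype.card (TripT n) = 4 * n.choose 3 := by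
  rw [Fintype.card_prod, Fintype.card_fin, mul_comm]
  congr 1
  rw [Fintype.card_subtype, Finset.card_filter, Fintype.sum_prod_type]
  simp only [Fintype.sum_prod_type]
  rw [Finset.sum_comm]
  rw [Finset.sum_congr rfl fun j _ => Finset.sum_comm]
  rw [Finset.sum_comm]
  have h : ∀ k : Fin n, ∑ j : Fin n, ∑ i : Fin n, (if i < j ∧ j < k then 1 else 0)
      = (fun k : ℕ => k.choose 2) k := by
    intro k
    have h1 : ∀ j : Fin n, ∑ i : Fin n, (if i < j ∧ j < k then 1 else 0)
        = if j < k then (j : ℕ) else 0 := by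
      intro j
      by_cases hjk : j < k
      · simp only [hjk, and_true, if_true]
        rw [sum_lt n j (fun _ => 1)]
        simp
      · simp [hjk]
    rw [Finset.sum_congr rfl fun j _ => h1 j]
    rw [sum_lt n k (fun j => j), sum_range_choose_one]
  rw [Finset.sum_congr rfl fun k _ => h k, Fin.sum_univ_eq_sum_range (fun j : ℕ => j.choose 2) n,
    sum_range_choose_two]

end Pool.Agent.H91.CovPoly
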