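import Pool.Agent.H91.CovPoly.Card

/-!
# The facets of a polytope
-/

set_option autoImplicit false

namespace Pool.Agent.H91.CovPoly

open Finset Filter Topology

/-- `P` is a `d`-dimensional polytope in `ℝ ^ d`: a bounded intersection of finitely many closed
half-spaces with nonempty interior -/
def IsPolytope {d : ℕ} (P : Set (EuclideanSpace ℝ (Fin d))) : Prop :=
  (∃ (m : ℕ) (a : Fin m → EuclideanSpace ℝ (Fin d)) (b : Fin m → ℝ), (∀ i, a i ≠ 0) ∧
    P = {x | ∀ i, inner ℝ (a i) x ≤ b i}) ∧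
  Bornology.IsBounded P ∧ (interior P).Nonempty

/-- `F` is a facet of `P`: a nonempty face `{x ∈ P | ⟨a, x⟩ = c}`, where `⟨a, x⟩ ≤ c` on `P`, of
dimension `d - 1` -/
def IsFacet {d : ℕ} (P F : Set (EuclideanSpace ℝ (Fin d))) : Prop :=
  F.Nonempty ∧ (∃ (a : EuclideanSpace ℝ (Fin d)) (c : ℝ), (∀ x ∈ P, inner ℝ a x ≤ c) ∧
    F = {x | x ∈ P ∧ inner ℝ a x = c}) ∧
  Module.finrank ℝ (vectorSpan ℝ F) + 1 = d

/-- `P` can be covered by `N` sets of smaller diameter -/
def Coverable {d : ℕ} (P : Set (EuclideanSpace ℝ (Fin d))) (N : ℕ) : Prop :=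
  ∃ A : Fin N → Set (EuclideanSpace ℝ (Fin d)), P ⊆ ⋃ i, A i ∧
    ∀ i, Metric.ediam (A i) < Metric.ediam P

variable {d : ℕ} {ι : Type} [Fintype ι]

/-- small steps keep strict inequalities -/
lemma small_step (s : Set ι) (a : ι → EuclideanSpace ℝ (Fin d)) (b : ι → ℝ)
    (x v : EuclideanSpace ℝ (Fin d)) (h : ∀ i ∈ s, inner ℝ (a i) x < b i) :
    ∃ ε : ℝ, 0 < ε ∧ ∀ i ∈ s, inner ℝ (a i) (x + ε • v) < b i := by
  have h1 : ∀ᶠ ε : ℝ in 𝓝 0, ∀ i : ι, i ∈ s → inner ℝ (a i) (x + ε • v) < b i := by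
    rw [Filter.eventually_all]
    intro i
    by_cases hi : i ∈ s
    · have hc : Continuous fun ε : ℝ => inner ℝ (a i) (x + ε • v) := by fun_prop
      have h2 : ∀ᶠ ε : ℝ in 𝓝 0, inner ℝ (a i) (x + ε • v) < b i := by
        refine hc.continuousAt.eventually_lt continuousAt_const ?_
        simpa using h i hi
      exact h2.mono fun ε hε _ => hε
    · exact Filter.Eventually.of_forall fun ε h' => absurd h' hi
  have h3 : ∀ᶠ ε : ℝ in 𝓝[>] 0, ∀ i : ι, i ∈ s → inner ℝ (a i) (x + ε • v) < b i :=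
    h1.filter_mono nhdsWithin_le_nhds
  obtain ⟨ε, hε, hε0⟩ := (h3.and self_mem_nhdsWithin).exists
  exact ⟨ε, hε0, hε⟩

lemma finrank_orth {a : EuclideanSpace ℝ (Fin d)} (ha : a ≠ 0) :
    Module.finrank ℝ (Submodule.span ℝ {a})ᗮ + 1 = d := by
  have h := Submodule.finrank_add_finrank_orthogonal (Submodule.span ℝ {a})
  rw [finrank_span_singleton ha, finrank_euclideanSpace_fin] at h
  omega

lemma vectorSpan_le_orth {a : EuclideanSpace ℝ (Fin d)} {c : ℝ}
    {F : Set (EuclideanSpace ℝ (Fin d))} (hF : ∀ x ∈ F, inner ℝ a x = c) :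
    vectorSpan ℝ F ≤ (Submodule.span ℝ {a})ᗮ := by
  rw [vectorSpan, Submodule.span_le]
  rintro _ ⟨x, hx, y, hy, rfl⟩
  rw [SetLike.mem_coe, Submodule.mem_orthogonal_singleton_iff_inner_right]
  simp only [vsub_eq_sub]
  rw [inner_sub_right, hF x hx, hF y hy, sub_self]

/-- each facet is given by one of the inequalities -/
lemma facet_eq (a : ι → EuclideanSpace ℝ (Fin d)) (b : ι → ℝ) (ha : ∀ i, a i ≠ 0)
    (hint : (interior {x : EuclideanSpace ℝ (Fin d) | ∀ i, inner ℝ (a i) x ≤ b i}).Nonempty)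
    {F : Set (EuclideanSpace ℝ (Fin d))}
    (hF : IsFacet {x : EuclideanSpace ℝ (Fin d) | ∀ i, inner ℝ (a i) x ≤ b i} F) :
    ∃ i, F = {x | (∀ i, inner ℝ (a i) x ≤ b i) ∧ inner ℝ (a i) x = b i} := by
  classical
  obtain ⟨⟨x₀, hx₀⟩, ⟨a', c, hle, hFeq⟩, hfin⟩ := hF
  have hx₀' : (∀ i, inner ℝ (a i) x₀ ≤ b i) ∧ inner ℝ a' x₀ = c := by rw [hFeq] at hx₀; exact hx₀
  -- the functional is not zero
  have ha' : a' ≠ 0 := by
    rintro rfl
    have hc : c = 0 := by rw [← hx₀'.2, inner_zero_left]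
    have hFP : F = {x : EuclideanSpace ℝ (Fin d) | ∀ i, inner ℝ (a i) x ≤ b i} := by
      rw [hFeq, hc]
      ext x
      simp
    have htop : affineSpan ℝ F = ⊤ := by
      rw [eq_top_iff, ← isOpen_interior.affineSpan_eq_top hint]
      rw [hFP]
      exact affineSpan_mono ℝ interior_subset
    have hv : vectorSpan ℝ F = ⊤ := by
      rw [← direction_affineSpan, htop, AffineSubspace.direction_top]
    rw [hv, finrank_top, finrank_euclideanSpace_fin] at hfin
    omega
  -- each point of `F` has a tight inequality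
  have htight : ∀ x ∈ F, ∃ i, inner ℝ (a i) x = b i := by
    intro x hx
    by_contra hcon
    push Not at hcon
    have hx' : (∀ i, inner ℝ (a i) x ≤ b i) ∧ inner ℝ a' x = c := by rw [hFeq] at hx; exact hx
    obtain ⟨ε, hε, h⟩ := small_step Set.univ a b x a' fun i _ =>
      lt_of_le_of_ne (hx'.1 i) (hcon i)
    have h1 := hle (x + ε • a') fun i => (h i (Set.mem_univ i)).le
    rw [inner_add_right, inner_smul_right, hx'.2, real_inner_self_eq_norm_sq] at h1
    have h2 : 0 < ε * ‖a'‖ ^ 2 := mul_pos hε (pow_pos (norm_pos_iff.2 ha') 2)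
    linarith
  -- one inequality is tight on all of `F`
  obtain ⟨i, hi⟩ : ∃ i, ∀ x ∈ F, inner ℝ (a i) x = b i := by
    by_contra hcon
    push Not at hcon
    choose z hz hzne using hcon
    have hz' : ∀ i, (∀ j, inner ℝ (a j) (z i) ≤ b j) ∧ inner ℝ a' (z i) = c := by
      intro i
      have := hz i
      rw [hFeq] at this
      exact this
    obtain ⟨i₀, -⟩ := htight x₀ hx₀
    have hN : (0 : ℝ) < Fintype.card ι := by
      have : 0 < Fintype.card ι := Fintype.card_pos_iff.2 ⟨i₀⟩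
      exact_mod_cast this
    set y : EuclideanSpace ℝ (Fin d) := (Fintype.card ι : ℝ)⁻¹ • ∑ i, z i with hy
    have hinner : ∀ u : EuclideanSpace ℝ (Fin d),
        inner ℝ u y = (Fintype.card ι : ℝ)⁻¹ * ∑ i, inner ℝ u (z i) := by
      intro u
      rw [hy, inner_smul_right, inner_sum]
    have hstrict : ∀ j, inner ℝ (a j) y < b j := by
      intro j
      rw [hinner, inv_mul_lt_iff₀ hN]
      calc ∑ i, inner ℝ (a j) (z i) < ∑ i : ι, b j := by
            refine Finset.sum_lt_sum (fun i _ => (hz' i).1 j) ⟨j, Finset.mem_univ j, ?_⟩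
            exact lt_of_le_of_ne ((hz' j).1 j) (hzne j)
        _ = (Fintype.card ι : ℝ) * b j := by
            rw [Finset.sum_const, Finset.card_univ, nsmul_eq_mul]
    have hyF : y ∈ F := by
      rw [hFeq]
      refine ⟨fun j => (hstrict j).le, ?_⟩
      rw [hinner, Finset.sum_congr rfl fun i _ => (hz' i).2, Finset.sum_const, Finset.card_univ,
        nsmul_eq_mul, ← mul_assoc, inv_mul_cancel₀ hN.ne', one_mul]
    obtain ⟨j, hj⟩ := htight y hyF
    exact absurd hj (hstrict j).ne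
  have hF1 : ∀ x ∈ F, inner ℝ a' x = c := by
    intro x hx
    rw [hFeq] at hx
    exact hx.2
  have e1 : vectorSpan ℝ F = (Submodule.span ℝ {a'})ᗮ :=
    Submodule.eq_of_le_of_finrank_eq (vectorSpan_le_orth hF1) (by
      have := finrank_orth ha'
      omega)
  have e2 : vectorSpan ℝ F = (Submodule.span ℝ {a i})ᗮ :=
    Submodule.eq_of_le_of_finrank_eq (vectorSpan_le_orth hi) (by
      have := finrank_orth (ha i)
      omega)
  refine ⟨i, ?_⟩
  ext x
  constructor
  · intro hx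
    refine ⟨?_, hi x hx⟩
    rw [hFeq] at hx
    exact hx.1
  · rintro ⟨hx1, hx2⟩
    rw [hFeq]
    refine ⟨hx1, ?_⟩
    have h1 : x - x₀ ∈ (Submodule.span ℝ {a i})ᗮ := by
      rw [Submodule.mem_orthogonal_singleton_iff_inner_right, inner_sub_right, hx2, hi x₀ hx₀,
        sub_self]
    rw [← e2, e1, Submodule.mem_orthogonal_singleton_iff_inner_right, inner_sub_right,
      hF1 x₀ hx₀] at h1
    linarith

/-- an inequality which is the only tight one at some point gives a facet -/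
lemma isFacet_of_strict (a : ι → EuclideanSpace ℝ (Fin d)) (b : ι → ℝ) (i : ι) (hai : a i ≠ 0)
    (y : EuclideanSpace ℝ (Fin d)) (hy : inner ℝ (a i) y = b i)
    (hlt : ∀ j, j ≠ i → inner ℝ (a j) y < b j) :
    IsFacet {x : EuclideanSpace ℝ (Fin d) | ∀ i, inner ℝ (a i) x ≤ b i}
      {x | (∀ i, inner ℝ (a i) x ≤ b i) ∧ inner ℝ (a i) x = b i} := by
  have hyP : ∀ j, inner ℝ (a j) y ≤ b j := by
    intro j
    by_cases h : j = i
    · rw [h, hy]
    · exact (hlt j h).le
  refine ⟨⟨y, hyP, hy⟩, ⟨a i, b i, fun x hx => hx i, rfl⟩, ?_⟩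
  have h1 : vectorSpan ℝ {x | (∀ i, inner ℝ (a i) x ≤ b i) ∧ inner ℝ (a i) x = b i}
      = (Submodule.span ℝ {a i})ᗮ := by
    apply le_antisymm
    · exact vectorSpan_le_orth fun x hx => hx.2
    · intro v hv
      rw [Submodule.mem_orthogonal_singleton_iff_inner_right] at hv
      obtain ⟨ε, hε, h⟩ := small_step {j | j ≠ i} a b y v hlt
      have hmem : y + ε • v ∈
          {x | (∀ i, inner ℝ (a i) x ≤ b i) ∧ inner ℝ (a i) x = b i} := by
        have h2 : inner ℝ (a i) (y + ε • v) = b i := by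
          rw [inner_add_right, inner_smul_right, hv, mul_zero, add_zero, hy]
        refine ⟨fun j => ?_, h2⟩
        by_cases hj : j = i
        · rw [hj, h2]
        · exact (h j hj).le
      have h3 := vsub_mem_vectorSpan ℝ hmem
        (show y ∈ {x | (∀ i, inner ℝ (a i) x ≤ b i) ∧ inner ℝ (a i) x = b i} from ⟨hyP, hy⟩)
      rw [vsub_eq_sub, add_sub_cancel_left] at h3
      have h4 := Submodule.smul_mem _ ε⁻¹ h3
      rwa [smul_smul, inv_mul_cancel₀ hε.ne', one_smul] at h4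
  rw [h1]
  exact finrank_orth hai

/-- the set of facets -/
lemma facets_eq (a : ι → EuclideanSpace ℝ (Fin d)) (b : ι → ℝ) (ha : ∀ i, a i ≠ 0)
    (hint : (interior {x : EuclideanSpace ℝ (Fin d) | ∀ i, inner ℝ (a i) x ≤ b i}).Nonempty)
    (y : ι → EuclideanSpace ℝ (Fin d)) (hy : ∀ i, inner ℝ (a i) (y i) = b i)
    (hlt : ∀ i j, j ≠ i → inner ℝ (a j) (y i) < b j) :
    {F | IsFacet {x : EuclideanSpace ℝ (Fin d) | ∀ i, inner ℝ (a i) x ≤ b i} F}.Finite ∧
    {F | IsFacet {x : EuclideanSpace ℝ (Fin d) | ∀ i, inner ℝ (a i) x ≤ b i} F}.ncard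
      = Fintype.card ι := by
  have h1 : {F | IsFacet {x : EuclideanSpace ℝ (Fin d) | ∀ i, inner ℝ (a i) x ≤ b i} F} =
      Set.range fun i => {x | (∀ i, inner ℝ (a i) x ≤ b i) ∧ inner ℝ (a i) x = b i} := by
    ext F
    constructor
    · intro hF
      obtain ⟨i, hi⟩ := facet_eq a b ha hint hF
      exact ⟨i, hi.symm⟩
    · rintro ⟨i, rfl⟩
      exact isFacet_of_strict a b i (ha i) (y i) (hy i) (hlt i)
  have hinj : Function.Injective fun i : ι =>
      {x : EuclideanSpace ℝ (Fin d) | (∀ i, inner ℝ (a i) x ≤ b i) ∧ inner ℝ (a i) x = b i} := by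
    intro i j hij
    by_contra hne
    have h2 : y i ∈ {x : EuclideanSpace ℝ (Fin d) |
        (∀ i, inner ℝ (a i) x ≤ b i) ∧ inner ℝ (a i) x = b i} := by
      refine ⟨fun l => ?_, hy i⟩
      by_cases h : l = i
      · rw [h, hy]
      · exact (hlt i l h).le
    simp only at hij
    rw [hij] at h2
    exact absurd h2.2 (hlt i j (Ne.symm hne)).ne
  rw [h1]
  refine ⟨Set.finite_range _, ?_⟩
  rw [← Set.image_univ, Set.ncard_image_of_injective _ hinj, Set.ncard_univ,
    Nat.card_eq_fintype_card]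

end Pool.Agent.H91.CovPoly
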