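import Pool.Agent.H91.CovPoly.Facet

/-!
# The metric polytopes: number of facets, and covers by sets of smaller diameter
-/

set_option autoImplicit false

namespace Pool.Agent.H91.CovPoly

open Finset Filter Topology

/-! ## The normal vectors -/

lemma nv_apply {n : ℕ} (t : TripT n) (e : PairT n) :
    nv t (ef n e) = sg t.2 0 * (if e.1 = (t.1.1.1, t.1.1.2.1) then 1 else 0)
      + sg t.2 1 * (if e.1 = (t.1.1.2.1, t.1.1.2.2) then 1 else 0)
      + sg t.2 2 * (if e.1 = (t.1.1.1, t.1.1.2.2) then 1 else 0) := by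
  simp only [nv, PiLp.add_apply, PiLp.smul_apply, PiLp.single_apply, smul_eq_mul,
    (ef n).injective.eq_iff, Subtype.ext_iff]

lemma sg_ne_zero (s : Fin 4) (l : Fin 3) : sg s l ≠ 0 := by
  fin_cases s <;> fin_cases l <;> norm_num [sg]

lemma sg_inj (s s' : Fin 4) (h0 : sg s 0 = sg s' 0) (h1 : sg s 1 = sg s' 1)
    (h2 : sg s 2 = sg s' 2) : s = s' := by
  revert h0 h1 h2
  fin_cases s <;> fin_cases s' <;> simp [sg] <;> norm_num

lemma sg_sq (s : Fin 4) : sg s 0 * sg s 0 + sg s 1 * sg s 1 + sg s 2 * sg s 2 = 3 := by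
  fin_cases s <;> simp [sg] <;> norm_num

lemma nv_12 {n : ℕ} (t : TripT n) :
    nv t (ef n ⟨(t.1.1.1, t.1.1.2.1), t.1.2.1⟩) = sg t.2 0 := by
  have h1 := t.1.2.1
  have h2 := t.1.2.2
  rw [nv_apply]
  simp [Prod.ext_iff, h1.ne, h2.ne]

lemma nv_23 {n : ℕ} (t : TripT n) :
    nv t (ef n ⟨(t.1.1.2.1, t.1.1.2.2), t.1.2.2⟩) = sg t.2 1 := by
  have h1 := t.1.2.1
  have h2 := t.1.2.2
  rw [nv_apply]
  simp [Prod.ext_iff, h1.ne']

lemma nv_13 {n : ℕ} (t : TripT n) :
    nv t (ef n ⟨(t.1.1.1, t.1.1.2.2), t.1.2.1.trans t.1.2.2⟩) = sg t.2 2 := by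
  have h1 := t.1.2.1
  have h2 := t.1.2.2
  rw [nv_apply]
  simp [Prod.ext_iff, h1.ne, h2.ne']

/-- a pair in the support -/
lemma nv_supp {n : ℕ} (t : TripT n) (e : PairT n) (h : nv t (ef n e) ≠ 0) :
    e.1 = (t.1.1.1, t.1.1.2.1) ∨ e.1 = (t.1.1.2.1, t.1.1.2.2) ∨ e.1 = (t.1.1.1, t.1.1.2.2) := by
  by_contra hcon
  push Not at hcon
  apply h
  rw [nv_apply]
  simp [hcon.1, hcon.2.1, hcon.2.2]

lemma nv_injective (n : ℕ) : Function.Injective (nv : TripT n → Sp n) := by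
  intro t t' h
  have e12 := nv_12 t
  have e23 := nv_23 t
  have e13 := nv_13 t
  have s12 := nv_supp t' ⟨(t.1.1.1, t.1.1.2.1), t.1.2.1⟩ (by
    rw [← h, e12]; exact sg_ne_zero _ _)
  have s23 := nv_supp t' ⟨(t.1.1.2.1, t.1.1.2.2), t.1.2.2⟩ (by
    rw [← h, e23]; exact sg_ne_zero _ _)
  have f12 := nv_12 t'
  have f23 := nv_23 t'
  have f13 := nv_13 t'
  obtain ⟨⟨⟨i, j, k⟩, hij, hjk⟩, s⟩ := t
  obtain ⟨⟨⟨i', j', k'⟩, hij', hjk'⟩, s'⟩ := t'
  simp only [Prod.mk.injEq, Fin.ext_iff] at s12 s23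
  simp only [Fin.lt_def] at hij hjk hij' hjk'
  have hi : i = i' := Fin.ext (by omega)
  have hj : j = j' := Fin.ext (by omega)
  have hk : k = k' := Fin.ext (by omega)
  subst hi hj hk
  simp only at e12 e23 e13 f12 f23 f13
  rw [h] at e12 e23 e13
  rw [e12] at f12
  rw [e23] at f23
  rw [e13] at f13
  rw [sg_inj s s' f12 f23 f13]

lemma inner_nv_self {n : ℕ} (t : TripT n) : inner ℝ (nv t) (nv t) = (3 : ℝ) := by
  rw [inner_nv, ent_lt _ t.1.2.1, ent_lt _ t.1.2.2, ent_lt _ (t.1.2.1.trans t.1.2.2), nv_12,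
    nv_23, nv_13]
  exact sg_sq t.2

lemma norm_nv {n : ℕ} (t : TripT n) : ‖nv t‖ ^ 2 = 3 := by
  rw [← real_inner_self_eq_norm_sq, inner_nv_self]

lemma nv_ne_zero {n : ℕ} (t : TripT n) : nv t ≠ 0 := by
  intro h
  have := norm_nv t
  rw [h, norm_zero] at this
  norm_num at this

lemma inner_nv_lt {n : ℕ} {t t' : TripT n} (h : t' ≠ t) : inner ℝ (nv t') (nv t) < (3 : ℝ) := by
  have hpos : 0 < ‖nv t' - nv t‖ ^ 2 :=
    pow_pos (norm_pos_iff.2 (sub_ne_zero.2 fun he => h (nv_injective n he))) 2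
  rw [norm_sub_sq_real, norm_nv, norm_nv] at hpos
  linarith

/-! ## The metric polytope -/

/-- the metric polytope, as a polytope with inequalities indexed by `TripT n` -/
def MP (n : ℕ) : Set (Sp n) := {X | ∀ t : TripT n, inner ℝ (nv t) X ≤ (fun _ => (1 : ℝ)) t}

lemma MP_eq (n : ℕ) : MP n = Pt n := by
  ext X
  rw [mem_Pt]
  rfl

lemma MP_facets (n : ℕ) : {F | IsFacet (MP n) F}.Finite ∧
    {F | IsFacet (MP n) F}.ncard = 4 * n.choose 3 := by
  have h := facets_eq (fun t : TripT n => nv t) (fun _ => (1 : ℝ)) nv_ne_zero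
    (by
      have := Pt_interior n
      rw [← MP_eq] at this
      exact this)
    (fun t => (1 / 3 : ℝ) • nv t)
    (fun t => by rw [inner_smul_right, inner_nv_self]; norm_num)
    (fun t t' ht => by
      rw [inner_smul_right]
      have := inner_nv_lt ht
      linarith)
  rw [card_trips] at h
  exact h

lemma MP_polytope {k : ℕ} (hk : 2 ≤ k) : IsPolytope (MP (2 * k)) := by
  refine ⟨⟨num (2 * k), fun q => nv ((tf _).symm q), fun _ => 1, fun q => nv_ne_zero _, ?_⟩, ?_, ?_⟩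
  · ext X
    constructor
    · intro h q
      exact h _
    · intro h t
      have := h (tf _ t)
      simp only [Equiv.symm_apply_apply] at this
      exact this
  · rw [MP_eq]; exact Pt_bounded hk
  · rw [MP_eq]; exact Pt_interior _

/-- the lower bound for the number of sets of smaller diameter -/
lemma cover_bound (p : ℕ) (hp : p.Prime) (N : ℕ) (h : Coverable (MP (4 * p)) N) :
    (4 * p - 1).choose (2 * p - 1) ≤ N * ∑ i ∈ Finset.range p, (4 * p).choose i := by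
  classical
  have : Fact p.Prime := ⟨hp⟩
  by_contra hcon
  push Not at hcon
  obtain ⟨S, hcov, hS⟩ := h
  rw [MP_eq] at hcov hS
  have h4 : 4 * p = 2 * (2 * p) := by ring
  have hdle : ∀ X ∈ Pt (4 * p), ∀ Y ∈ Pt (4 * p), dist X Y ≤ 4 * (p : ℝ) := by
    have hgen : ∀ m : ℕ, m = 2 * (2 * p) → ∀ X ∈ Pt m, ∀ Y ∈ Pt m, dist X Y ≤ 4 * (p : ℝ) := by
      rintro m rfl X hX Y hY
      have := dist_le (k := 2 * p) (by have := hp.two_le; omega) hX hY
      push_cast at this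
      linarith
    exact hgen _ h4
  have hdiam : Metric.ediam (Pt (4 * p)) ≤ ENNReal.ofReal (4 * (p : ℝ)) := by
    refine Metric.ediam_le fun X hX Y hY => ?_
    rw [edist_dist]
    exact ENNReal.ofReal_le_ofReal (hdle X hX Y hY)
  obtain ⟨z, F, hFcard, hF⟩ := exists_family p hp.pos
  have hex : ∀ A : Finset (Fin (4 * p)), ∃ q, cv A ∈ S q := fun A =>
    Set.mem_iUnion.1 (hcov (cv_mem A))
  choose c hc using hex
  obtain ⟨q, _, hq⟩ := Finset.exists_lt_card_fiber_of_mul_lt_card_of_maps_to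
    (s := F) (t := (Finset.univ : Finset (Fin N))) (f := c)
    (n := ∑ i ∈ Finset.range p, (4 * p).choose i) (fun _ _ => Finset.mem_univ _)
    (by rw [hFcard, Finset.card_univ, Fintype.card_fin]; exact hcon)
  refine absurd (frankl_wilson (p := p) (F.filter fun A => c A = q) ?_ ?_) (not_le.2 hq)
  · intro A hA
    rw [(hF A (Finset.mem_filter.1 hA).1).1]
    push_cast
    simp
  · intro A hA B hB hAB h0
    rw [Finset.mem_filter] at hA hB
    obtain ⟨hA1, hA2⟩ := hF A hA.1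
    obtain ⟨hB1, hB2⟩ := hF B hB.1
    rw [ZMod.natCast_eq_zero_iff] at h0
    obtain ⟨t, ht⟩ := h0
    have hpos : 0 < (A ∩ B).card := Finset.card_pos.2 ⟨z, Finset.mem_inter.2 ⟨hA2, hB2⟩⟩
    have hlt : (A ∩ B).card < 2 * p := by
      rw [← hA1]
      refine Finset.card_lt_card ⟨Finset.inter_subset_left, fun hsub => hAB ?_⟩
      have h1 : A ⊆ B := fun x hx => (Finset.mem_inter.1 (hsub hx)).2
      exact Finset.eq_of_subset_of_card_le h1 (by rw [hA1, hB1])
    have ht1 : t = 1 := by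
      have h1 : 0 < t := Nat.pos_of_ne_zero (by
        intro h0
        rw [h0, mul_zero] at ht
        omega)
      have h2 : t < 2 := by
        rw [ht, mul_comm 2 p] at hlt
        exact Nat.lt_of_mul_lt_mul_left hlt
      omega
    rw [ht1, mul_one] at ht
    have hdist := dist_cv hA1 hB1 ht
    have hcA : cv A ∈ S q := by have := hc A; rwa [hA.2] at this
    have hcB : cv B ∈ S q := by have := hc B; rwa [hB.2] at this
    have hle := Metric.edist_le_ediam_of_mem hcA hcB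
    rw [edist_dist, hdist] at hle
    exact absurd (hle.trans_lt (hS q)) (not_lt.2 hdiam)

/-! ## Numbers -/

lemma sum_choose_le (p : ℕ) :
    ((∑ i ∈ Finset.range p, (4 * p).choose i : ℕ) : ℝ) ≤ (256 / 27) ^ p := by
  have h1 : ((∑ i ∈ Finset.range p, (4 * p).choose i : ℕ) : ℝ) * (1 / 3) ^ p
      ≤ (1 / 3 + 1) ^ (4 * p) := by
    rw [add_pow, Nat.cast_sum, Finset.sum_mul]
    refine (Finset.sum_le_sum (g := fun i => (1 / 3 : ℝ) ^ i * 1 ^ (4 * p - i) *
      ((4 * p).choose i : ℝ)) fun i hi => ?_).trans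
      (Finset.sum_le_sum_of_subset_of_nonneg ?_ fun i _ _ => by positivity)
    · rw [one_pow, mul_one, mul_comm]
      refine mul_le_mul_of_nonneg_right ?_ (by positivity)
      exact pow_le_pow_of_le_one (by norm_num) (by norm_num) (Finset.mem_range.1 hi).le
    · intro i hi
      rw [Finset.mem_range] at hi ⊢
      omega
  have h2 : (1 / 3 + 1 : ℝ) ^ (4 * p) = (256 / 27) ^ p * (1 / 3) ^ p := by
    rw [pow_mul, ← mul_pow]
    norm_num
  rw [h2] at h1
  exact le_of_mul_le_mul_right h1 (by positivity)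

lemma choose_ge (p : ℕ) (hp : 0 < p) :
    (16 : ℝ) ^ p ≤ 8 * p * ((4 * p - 1).choose (2 * p - 1) : ℕ) := by
  have h1 := Nat.four_pow_le_two_mul_self_mul_centralBinom (2 * p) (by omega)
  have h2 : Nat.centralBinom (2 * p) = 2 * (4 * p - 1).choose (2 * p - 1) := by
    obtain ⟨q, rfl⟩ : ∃ q, p = q + 1 := ⟨p - 1, by omega⟩
    rw [Nat.centralBinom, show 2 * (2 * (q + 1)) = (4 * q + 3) + 1 by ring,
      show 2 * (q + 1) = (2 * q + 1) + 1 by ring, Nat.choose_succ_succ,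
      show 4 * (q + 1) - 1 = 4 * q + 3 by omega, show 2 * q + 1 + 1 - 1 = 2 * q + 1 by omega]
    have h3 : (4 * q + 3).choose (2 * q + 1 + 1) = (4 * q + 3).choose (2 * q + 1) :=
      Nat.choose_symm_of_eq_add (by ring)
    rw [Nat.succ_eq_add_one, h3]
    ring
  rw [h2, pow_mul] at h1
  have h4 : (16 : ℕ) ^ p ≤ 8 * p * ((4 * p - 1).choose (2 * p - 1)) := by
    calc (16 : ℕ) ^ p = (4 ^ 2) ^ p := by norm_num
      _ ≤ _ := h1
      _ = 8 * p * ((4 * p - 1).choose (2 * p - 1)) := by ring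
  exact_mod_cast h4

/-- the explicit bound -/
lemma cover_bound' (p : ℕ) (hp : p.Prime) (N : ℕ) (h : Coverable (MP (4 * p)) N) :
    (27 / 16 : ℝ) ^ p ≤ 8 * p * N := by
  have h1 := cover_bound p hp N h
  have h2 : (((4 * p - 1).choose (2 * p - 1) : ℕ) : ℝ) ≤ N * (256 / 27) ^ p := by
    calc (((4 * p - 1).choose (2 * p - 1) : ℕ) : ℝ)
        ≤ ((N * ∑ i ∈ Finset.range p, (4 * p).choose i : ℕ) : ℝ) := by exact_mod_cast h1
      _ = (N : ℝ) * ((∑ i ∈ Finset.range p, (4 * p).choose i : ℕ) : ℝ) := by push_cast; ring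
      _ ≤ N * (256 / 27) ^ p := mul_le_mul_of_nonneg_left (sum_choose_le p) (by positivity)
  have h3 := choose_ge p hp.pos
  have h4 : (16 : ℝ) ^ p = (27 / 16) ^ p * (256 / 27) ^ p := by
    rw [← mul_pow]; norm_num
  have h5 : (27 / 16 : ℝ) ^ p * (256 / 27) ^ p ≤ (8 * p * N) * (256 / 27) ^ p := by
    rw [← h4]
    calc (16 : ℝ) ^ p ≤ 8 * p * ((4 * p - 1).choose (2 * p - 1) : ℕ) := h3
      _ ≤ 8 * p * (N * (256 / 27) ^ p) := mul_le_mul_of_nonneg_left h2 (by positivity)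
      _ = _ := by ring
  exact le_of_mul_le_mul_right h5 (by positivity)

lemma choose_three_le (n : ℕ) : ((n.choose 3 : ℕ) : ℝ) ≤ (n : ℝ) ^ 3 / 6 := by
  have h := Nat.choose_le_pow_div (α := ℝ) 3 n
  have : ((Nat.factorial 3 : ℕ) : ℝ) = 6 := by norm_num [Nat.factorial]
  rw [this] at h
  exact h

lemma growth (p : ℕ) (hp : 41 ≤ p) : (342 : ℝ) * (p : ℝ) ^ 4 < (27 / 16) ^ p := by
  induction p, hp using Nat.le_induction with
  | base => norm_num
  | succ n hn ih =>
    have hn' : (41 : ℝ) ≤ n := by exact_mod_cast hn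
    have h1 : ((n + 1 : ℕ) : ℝ) ≤ (42 / 41) * n := by push_cast; linarith
    calc (342 : ℝ) * ((n + 1 : ℕ) : ℝ) ^ 4 ≤ 342 * ((42 / 41) * n) ^ 4 := by
          refine mul_le_mul_of_nonneg_left ?_ (by norm_num)
          exact pow_le_pow_left₀ (by positivity) h1 4
      _ = (42 / 41) ^ 4 * (342 * (n : ℝ) ^ 4) := by ring
      _ ≤ (27 / 16) * (342 * (n : ℝ) ^ 4) := by
          refine mul_le_mul_of_nonneg_right (by norm_num) (by positivity)
      _ < (27 / 16) * (27 / 16) ^ n := by linarith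
      _ = (27 / 16) ^ (n + 1) := by ring

set_option maxRecDepth 100000 in
lemma numeric29 : (4 * (4 * 29).choose 3) * (∑ i ∈ Finset.range 29, (4 * 29).choose i)
      < (4 * 29 - 1).choose (2 * 29 - 1) := by
  norm_num [Finset.sum_range_succ, Nat.choose]

set_option maxRecDepth 100000 in
lemma numeric31 : (4 * (4 * 31).choose 3) * (∑ i ∈ Finset.range 31, (4 * 31).choose i)
      < (4 * 31 - 1).choose (2 * 31 - 1) := by
  norm_num [Finset.sum_range_succ, Nat.choose]

set_option maxRecDepth 100000 in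
lemma numeric37 : (4 * (4 * 37).choose 3) * (∑ i ∈ Finset.range 37, (4 * 37).choose i)
      < (4 * 37 - 1).choose (2 * 37 - 1) := by
  norm_num [Finset.sum_range_succ, Nat.choose]

/-- as many sets as facets do not suffice -/
lemma not_coverable (p : ℕ) (hp : p.Prime) (h29 : 29 ≤ p) :
    ¬ Coverable (MP (4 * p)) (4 * (4 * p).choose 3) := by
  intro h
  by_cases h41 : 41 ≤ p
  · have h1 := cover_bound' p hp _ h
    have h2 := growth p h41
    have h3 := choose_three_le (4 * p)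
    push_cast at h1 h3
    have h4 : 8 * (p : ℝ) * (4 * ((4 * p).choose 3 : ℕ)) ≤ 342 * (p : ℝ) ^ 4 := by
      calc 8 * (p : ℝ) * (4 * ((4 * p).choose 3 : ℕ))
          ≤ 8 * (p : ℝ) * (4 * ((4 * (p : ℝ)) ^ 3 / 6)) := by
            refine mul_le_mul_of_nonneg_left ?_ (by positivity)
            linarith
        _ = (1024 / 3) * (p : ℝ) ^ 4 := by ring
        _ ≤ 342 * (p : ℝ) ^ 4 := mul_le_mul_of_nonneg_right (by norm_num) (by positivity)
    linarith
  · have h1 := cover_bound p hp _ h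
    have h2 : p = 29 ∨ p = 31 ∨ p = 37 := by
      have : p < 41 := by omega
      interval_cases p <;> revert hp <;> norm_num
    rcases h2 with rfl | rfl | rfl
    · exact absurd h1 (not_le.2 numeric29)
    · exact absurd h1 (not_le.2 numeric31)
    · exact absurd h1 (not_le.2 numeric37)

/-- powers of the number of facets -/
lemma not_coverable_pow (k : ℕ) : ∃ p₀ : ℕ, ∀ p : ℕ, p₀ ≤ p → p.Prime →
    ¬ Coverable (MP (4 * p)) ((4 * (4 * p).choose 3) ^ k) := by
  have h1 := tendsto_pow_const_div_const_pow_of_one_lt (3 * k + 1)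
    (show (1 : ℝ) < 27 / 16 by norm_num)
  have h2 : ∀ᶠ p : ℕ in atTop, (p : ℝ) ^ (3 * k + 1) / (27 / 16) ^ p < 1 / (8 * 256 ^ k) :=
    h1.eventually (gt_mem_nhds (by positivity))
  obtain ⟨p₀, hp₀⟩ := eventually_atTop.1 h2
  refine ⟨p₀, fun p hp hprime h => ?_⟩
  have h3 := hp₀ p hp
  have h4 := cover_bound' p hprime _ h
  have h5 : (((4 * (4 * p).choose 3) ^ k : ℕ) : ℝ) ≤ 256 ^ k * (p : ℝ) ^ (3 * k) := by
    have h6 := choose_three_le (4 * p)
    push_cast at h6 ⊢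
    calc (4 * ((4 * p).choose 3 : ℕ) : ℝ) ^ k ≤ (256 * (p : ℝ) ^ 3) ^ k := by
          refine pow_le_pow_left₀ (by positivity) ?_ k
          have : (0 : ℝ) ≤ (p : ℝ) ^ 3 := by positivity
          nlinarith
      _ = 256 ^ k * (p : ℝ) ^ (3 * k) := by rw [mul_pow, ← pow_mul]
  have h7 : (27 / 16 : ℝ) ^ p ≤ 8 * 256 ^ k * (p : ℝ) ^ (3 * k + 1) := by
    calc (27 / 16 : ℝ) ^ p ≤ 8 * p * (((4 * (4 * p).choose 3) ^ k : ℕ) : ℝ) := h4
      _ ≤ 8 * p * (256 ^ k * (p : ℝ) ^ (3 * k)) := mul_le_mul_of_nonneg_left h5 (by positivity)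
      _ = _ := by ring
  rw [div_lt_div_iff₀ (by positivity) (by positivity), one_mul] at h3
  linarith

end Pool.Agent.H91.CovPoly
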